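import Pool.Agent.LibDS14.D18
import Pool.Agent.LibSMP.Member
import Pool.Agent.LibSMP.SpaceHard
import Pool.Agent.LibSMP.NPHard

set_option autoImplicit false

/-!
# The complexity of subpower membership for finite semigroups
-/

namespace Pool.Agent.Results.MP_172277_lc.Classification

open Pool.Agent.LibSMP Pool.Agent.LibComplexity Pool.Agent.LibDS14

/-- Let `S` be a finite semigroup. If `S` is not locally DS then `SMP S` is `PSPACE`-hard. If `S`
is not locally completely regular then `SMP S` is `NP`-hard. If `S` is locally DS and every group
that embeds in `S` in such a way that its identity is not tame is solvable, then `SMP S` is in `NP`. -/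
theorem result (S : Type) [Semigroup S] [Finite S] [Enc S] :
    (¬ LocallyDS S → ∀ L, InPSPACE L → PolyRed L (SMP S)) ∧
      (¬ LocallyCR S → ∀ L, InNP ∅ L → PolyRed L (SMP S)) ∧
      (LocallyDS S → (∀ (G : Type) [Group G] (f : G →ₙ* S), Function.Injective f → ¬ Tame S (f 1) →
        Group.IsSolvable G) → InNP ∅ (SMP S)) := by
  refine ⟨fun h L hL => pspace_hard h hL, fun h L hL => np_hard h hL, fun h hsolv => ?_⟩
  obtain ⟨C, hC⟩ := short_words_v3 h hsolv
  exact inNP_of_short C hC

end Pool.Agent.Results.MP_172277_lc.Classification
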