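import Pool.Agent.LibSMQ.Member
import Pool.Agent.LibSMP.SpaceHard

set_option autoImplicit false

/-!
# A dichotomy for the subpower membership problem of a finite semigroup

No hypothesis on the subgroups of the semigroup.
-/

namespace Pool.Agent.Results.MP_172277_lc.WitnessDichotomy

open Pool.Agent.LibSMP Pool.Agent.LibSMQ Pool.Agent.LibComplexity

/-- Let `S` be a finite semigroup. Then `S` is locally DS if and only if there is a constant `C` such that,
for all `n`, `k` and all `a 0, ..., a (k-1), b` in `S^n` with `b` in the subsemigroup generated by the `a j`,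
the tuple `b` is a product of at most `2 ^ ((log2 (n + k + 2) + 1) ^ C)` factors from the `a j`. If `S` is
locally DS then `SMP S` is in nondeterministic quasi-polynomial time. If `S` is not locally DS then `SMP S` is
`PSPACE`-hard. -/
theorem result (S : Type) [Semigroup S] [Finite S] [Enc S] :
    (LocallyDS S ↔
      ∃ C : ℕ, ∀ (n k : ℕ) (a : Fin k → Fin n → S) (b : Fin n → S),
        b ∈ Subsemigroup.closure (Set.range a) →
          ∃ w : FreeSemigroup (Fin k),
            w.length ≤ 2 ^ ((Nat.log 2 (n + k + 2) + 1) ^ C) ∧ FreeSemigroup.lift a w = b) ∧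
      (LocallyDS S → InNQP (SMP S)) ∧
      (¬ LocallyDS S → ∀ L, InPSPACE L → PolyRed L (SMP S)) := by
  refine ⟨lds_iff_short, fun h => ?_, fun h L hL => pspace_hard h hL⟩
  obtain ⟨C, hC⟩ := LibSMQ.short_words h
  exact inNQP_of_short C hC

end Pool.Agent.Results.MP_172277_lc.WitnessDichotomy
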