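import Pool.Agent.LibDS14.D18
import Pool.Agent.LibSMP.Reduce

set_option autoImplicit false

/-!
# Lengths of witnesses for subpower membership

For a finite semigroup `S` all of whose subgroups with non-tame identity are solvable, positive instances
of `SMP(S)` have witnesses of polynomial length if and only if `S` is locally DS.
-/

namespace Pool.Agent.Results.MP_172277_lc.WitnessLength

open Pool.Agent.LibSMP Pool.Agent.LibDS14 Filter

universe u

lemma exp_beats_poly (C : ℕ) : ∃ N : ℕ, (N * 2 + 1 + (N + 1) + 2) ^ C < 2 ^ N := by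
  have h1 := tendsto_pow_const_div_const_pow_of_one_lt C (r := (2 : ℝ)) (by norm_num)
  have h2 : Tendsto (fun n : ℕ => (7 : ℝ) ^ C * ((n : ℝ) ^ C / 2 ^ n)) atTop (nhds 0) := by
    simpa using h1.const_mul ((7 : ℝ) ^ C)
  have h3 : ∀ᶠ n : ℕ in atTop, (7 : ℝ) ^ C * ((n : ℝ) ^ C / 2 ^ n) < 1 :=
    h2.eventually (gt_mem_nhds one_pos)
  obtain ⟨N, h4, h5⟩ := (h3.and (eventually_ge_atTop 1)).exists
  refine ⟨N, ?_⟩
  have h6 : ((N * 2 + 1 + (N + 1) + 2) ^ C : ℕ) ≤ 7 ^ C * N ^ C := by
    rw [← mul_pow]
    apply Nat.pow_le_pow_left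
    omega
  have h7 : ((7 ^ C * N ^ C : ℕ) : ℝ) < ((2 ^ N : ℕ) : ℝ) := by
    push_cast
    rw [← mul_div_assoc, div_lt_one (by positivity)] at h4
    exact h4
  have h8 : 7 ^ C * N ^ C < 2 ^ N := by exact_mod_cast h7
  omega

/-- Let `S` be a finite semigroup such that every group that embeds in `S` with an identity that is not
tame is solvable.
Then `S` is locally DS if and only if there is a constant `C` such that, for all `n`, `k` and
all tuples `a 0, ..., a (k-1), b` in `S^n` with `b` in the subsemigroup generated by the `a j`,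
the tuple `b` is a product of at most `(n + k + 2)^C` factors from the `a j`. -/
theorem result (S : Type u) [Semigroup S] [Finite S]
    (hsolv : ∀ (G : Type u) [Group G] (f : G →ₙ* S), Function.Injective f → ¬ Tame S (f 1) →
      Group.IsSolvable G) :
    LocallyDS S ↔
      ∃ C : ℕ, ∀ (n k : ℕ) (a : Fin k → Fin n → S) (b : Fin n → S),
        b ∈ Subsemigroup.closure (Set.range a) →
          ∃ w : FreeSemigroup (Fin k),
            w.length ≤ (n + k + 2) ^ C ∧ FreeSemigroup.lift a w = b := by
  constructor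
  · intro h
    exact short_words_v3 h hsolv
  · rintro ⟨C, hC⟩
    by_contra hcon
    obtain ⟨N, hN⟩ := exp_beats_poly C
    obtain ⟨a, b, hb, hw⟩ := long_words hcon N
    obtain ⟨w, hw1, hw2⟩ := hC _ _ a b hb
    rw [hw w hw2] at hw1
    omega

end Pool.Agent.Results.MP_172277_lc.WitnessLength
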